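import Pool.Agent.X264.AR.Prob

/-!
# The free group of rank two is not algebraically recurrent

Let `ζ_1, ζ_2, …` be i.i.d. with law `μ` on a group `G`, let `X_n = ζ_1 ⋯ ζ_n` and let `𝒮_n` be
the subsemigroup generated by `X_n, X_{n+1}, …`. We construct a symmetric probability measure `μ`
on the free group `F_2 = ⟨a, b⟩`, whose support generates `F_2`, and an index `n` such that with
positive probability `1 ∉ 𝒮_n`.

The increments are `a^{±1}`, `b^{±1}` and `(a^{N_k} b^{N_k})^{±1}`, where `N_k` grows very fast and
the type `k` has a heavy tail, `P(type ≥ h) = 1/(h+1)`. With positive probability, for every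
`m ≥ n` the largest type `κ` among the first `m` increments is attained exactly once and
`m ≤ 64 κ²`. Then all positions `X_i` with `i ≤ m` which come after this increment are of the form
`X_T w^ε Y_i` with `w = a^N b^N` and `X_T, Y_i` with very small exponents (and the sign `ε` does
not depend on `i`), and a product of such elements cannot cancel; an induction gives that no
product of the `X_i`, `n ≤ i ≤ m`, is trivial.
-/

set_option autoImplicit false

namespace Pool.Agent.Results.MP_3ace2b_pr.FreeRankTwo

open MeasureTheory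

variable {G : Type*} [Group G]

/-- The position `X_n = ζ_1 ζ_2 ⋯ ζ_n` of the walk with the increments
`ζ_1 = ζ 0, ζ_2 = ζ 1, …` -/
def position (ζ : ℕ → G) (n : ℕ) : G := ((List.range n).map ζ).prod

/-- The subsemigroup `𝒮_n` generated by `X_n, X_{n+1}, …` -/
def tailSemigroup (ζ : ℕ → G) (n : ℕ) : Subsemigroup G :=
  Subsemigroup.closure {g | ∃ m ≥ n, g = position ζ m}

/-- The law, on the space `G^ℕ` of all sequences, of a sequence of independent random variables
with law `μ` (the infinite product measure; `G` carries the discrete `σ`-algebra). -/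
noncomputable def iidLaw (μ : PMF G) :
    @Measure (ℕ → G) (@MeasurableSpace.pi ℕ (fun _ => G) fun _ => ⊤) :=
  letI : MeasurableSpace G := ⊤
  Measure.infinitePi fun _ : ℕ => μ.toMeasure

/-- `(G, μ)` is algebraically recurrent: for every `n ≥ 1`, almost surely `𝒮_n = G`. -/
def AR (μ : PMF G) : Prop :=
  ∀ n : ℕ, 1 ≤ n → ∀ᵐ ζ ∂(iidLaw μ), tailSemigroup ζ n = ⊤

/-- `G` is algebraically recurrent: `(G, μ)` is algebraically recurrent for every symmetric
probability measure `μ` on `G` whose support generates `G` as a group. -/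
def GroupAR (G : Type*) [Group G] : Prop :=
  ∀ μ : PMF G, (∀ g, μ g⁻¹ = μ g) → Subgroup.closure μ.support = ⊤ → AR μ

open Pool.Agent.X264.AR in
theorem tailSemigroup_ne_top (z : ℕ → ℕ × Bool) (H : Good z (64 ^ 6)) :
    tailSemigroup (fun i => step (z i)) (64 ^ 6) ≠ ⊤ := by
  intro h
  refine one_notMem z (64 ^ 6) H ?_
  have e : {g | ∃ m ≥ 64 ^ 6, g = walk (fun i => step (z i)) m} =
      {g | ∃ m ≥ 64 ^ 6, g = position (fun i => step (z i)) m} := by
    ext g
    simp only [walk_step, position, prodSteps, List.map_map, Function.comp_def]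
  rw [e]
  have : (1 : F) ∈ tailSemigroup (fun i => step (z i)) (64 ^ 6) := by rw [h]; trivial
  exact this

/-- **The free group of rank two is not algebraically recurrent.** -/
theorem result : ¬ GroupAR (FreeGroup (Fin 2)) := by
  intro h
  have h1 := h Pool.Agent.X264.AR.μ Pool.Agent.X264.AR.μ_symm Pool.Agent.X264.AR.μ_gen
    (64 ^ 6) (by norm_num)
  let _ : MeasurableSpace (FreeGroup (Fin 2)) := ⊤
  have hm : Measurable Pool.Agent.X264.AR.step := Measurable.of_discrete
  have e : iidLaw Pool.Agent.X264.AR.μ =
      Pool.Agent.X264.AR.P.map fun z i => Pool.Agent.X264.AR.step (z i) := by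
    have := Measure.infinitePi_map_pi (fun _ : ℕ => Pool.Agent.X264.AR.ν.toMeasure)
      (fun _ : ℕ => hm)
    rw [Pool.Agent.X264.AR.P, this]
    unfold iidLaw
    congr 1
    funext i
    rw [Pool.Agent.X264.AR.μ, PMF.toMeasure_map _ _ hm]
  rw [e] at h1
  have hm' : Measurable fun (z : ℕ → ℕ × Bool) (i : ℕ) => Pool.Agent.X264.AR.step (z i) :=
    measurable_pi_lambda _ fun i => hm.comp (measurable_pi_apply i)
  have h2 := ae_of_ae_map hm'.aemeasurable h1
  rw [ae_iff] at h2
  exact Pool.Agent.X264.AR.P_good (measure_mono_null (fun z hz => tailSemigroup_ne_top z hz) h2)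

end Pool.Agent.Results.MP_3ace2b_pr.FreeRankTwo
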